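import Pool.Agent.Y263.IV.Fin

set_option autoImplicit false

/-!
# Products of involutive germs: `I^∞ = I^4`, and a description of every `I^n`, `n ≥ 3`

In the group of biholomorphic germs at `0`:
* `I^∞ = I^4`, and for every `n ≥ 4` the set `I^n` consists of the germs
  `σ z + a z ^ 2 + σ a ^ 2 z ^ 3 + O(z ^ 4)` with `σ = ± 1`;
* `I^3` consists of the germs `-z + a z ^ 2 - a ^ 2 z ^ 3 + O(z ^ 4)` and of the germs with multiplier `1` in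
  `I^2`, that is, those for which some involution `τ` satisfies `τ ∘ f ∘ τ ∘ f = id`;
* `z + z ^ 5` is in `I^4` and not in `I^3`.
-/

namespace Pool.Agent.Results.MP_40a019_an.FourInvolutions

open Filter Topology Asymptotics

/-- `f` is a biholomorphic germ at `0` fixing `0`. -/
def IsGerm (f : ℂ → ℂ) : Prop := AnalyticAt ℂ f 0 ∧ f 0 = 0 ∧ deriv f 0 ≠ 0

/-- `τ` is an involution of the group of germs (the identity is allowed). -/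
def IsInvolution (τ : ℂ → ℂ) : Prop := IsGerm τ ∧ τ ∘ τ =ᶠ[𝓝 0] id

/-- `f`, as a germ at `0`, is a composition of `n` involutions. -/
def InI (n : ℕ) (f : ℂ → ℂ) : Prop :=
  ∃ l : List (ℂ → ℂ), l.length = n ∧ (∀ τ ∈ l, IsInvolution τ) ∧
    f =ᶠ[𝓝 0] l.foldr (fun τ g => τ ∘ g) id

/-- `f(z) = σ z + a z ^ 2 + σ a ^ 2 z ^ 3 + O(z ^ 4)`. -/
def HasJet (f : ℂ → ℂ) (σ a : ℂ) : Prop :=
  (fun z => f z - (σ * z + a * z ^ 2 + σ * a ^ 2 * z ^ 3)) =O[𝓝 0] (fun z => z ^ 4)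

theorem result :
    (∀ (m : ℕ) (f : ℂ → ℂ), InI m f → InI 4 f) ∧
    (∀ n : ℕ, 4 ≤ n → ∀ f : ℂ → ℂ, IsGerm f → (InI n f ↔ ∃ σ a : ℂ, (σ = 1 ∨ σ = -1) ∧ HasJet f σ a)) ∧
    (∀ f : ℂ → ℂ, IsGerm f → (InI 3 f ↔ (∃ a : ℂ, HasJet f (-1) a) ∨ (deriv f 0 = 1 ∧ InI 2 f))) ∧
    (∀ f : ℂ → ℂ, IsGerm f → (InI 2 f ↔ ∃ τ, IsInvolution τ ∧ τ ∘ f ∘ τ ∘ f =ᶠ[𝓝 0] id)) ∧
    (InI 4 (fun z => z + z ^ 5) ∧ ¬ InI 3 (fun z => z + z ^ 5)) := by
  refine ⟨fun m f h => ?_, fun n hn f hf => ⟨fun h => BoundedWidth.necessary h, ?_⟩,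
    fun f hf => Y263.IV.three_iff hf, fun f hf => Y263.IV.two_iff hf, Y263.IV.quintic_four,
    Y263.IV.not_three⟩
  · obtain ⟨σ, a, hσ, hO⟩ := BoundedWidth.necessary h
    exact Y263.IV.four (BoundedWidth.InI.germ h) hσ hO
  · rintro ⟨σ, a, hσ, hO⟩
    exact (Y263.IV.four hf hσ hO).mono hn

end Pool.Agent.Results.MP_40a019_an.FourInvolutions
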